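import Pool.Agent.N329.SD.Stm

/-!
# SD/EQ1: the system is in the class
-/

set_option autoImplicit false

namespace Pool.Agent.N596.SD

open Pool.Agent.N329.SD

theorem dl_pr : Primrec dl := Primrec.ofNat (List ℕ)

theorem el_pr : Primrec el := Primrec.encode

theorem u1 : Primrec (fun n : ℕ => n.unpair.1) := Primrec.fst.comp Primrec.unpair

theorem u2 : Primrec (fun n : ℕ => n.unpair.2) := Primrec.snd.comp Primrec.unpair

theorem pfx : PrimrecRel (fun s t : List ℕ => s <+: t) := by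
  have h : PrimrecPred (fun p : List ℕ × List ℕ => p.1 = p.2.take p.1.length) :=
    Primrec.eq.comp Primrec.fst
      (Primrec.list_take.comp (Primrec.list_length.comp Primrec.fst) Primrec.snd)
  exact h.of_eq fun p => (List.prefix_iff_eq_take).symm

theorem ee : PrimrecPred (fun n : ℕ => PE n.unpair.1.unpair.1 n.unpair.1.unpair.2
    n.unpair.2.unpair.1 n.unpair.2.unpair.2) := by
  have hi : Primrec (fun n : ℕ => n.unpair.1.unpair.1) := u1.comp u1
  have hm : Primrec (fun n : ℕ => n.unpair.1.unpair.2) := u2.comp u1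
  have hj : Primrec (fun n : ℕ => n.unpair.2.unpair.1) := u1.comp u2
  have hn : Primrec (fun n : ℕ => n.unpair.2.unpair.2) := u2.comp u2
  have m1 : Primrec (fun n : ℕ => dl n.unpair.1.unpair.2.unpair.1) := dl_pr.comp (u1.comp hm)
  have m2 : Primrec (fun n : ℕ => dl n.unpair.1.unpair.2.unpair.2) := dl_pr.comp (u2.comp hm)
  have n1 : Primrec (fun n : ℕ => dl n.unpair.2.unpair.2.unpair.1) := dl_pr.comp (u1.comp hn)
  have n2 : Primrec (fun n : ℕ => dl n.unpair.2.unpair.2.unpair.2) := dl_pr.comp (u2.comp hn)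
  have a1 : PrimrecPred (fun n : ℕ => (dl n.unpair.1.unpair.2.unpair.1).length =
      n.unpair.1.unpair.1 + 1) :=
    Primrec.eq.comp (Primrec.list_length.comp m1) (Primrec.succ.comp hi)
  have a2 : PrimrecPred (fun n : ℕ => (dl n.unpair.1.unpair.2.unpair.2).length =
      n.unpair.1.unpair.1 + 1) :=
    Primrec.eq.comp (Primrec.list_length.comp m2) (Primrec.succ.comp hi)
  have a3 : PrimrecPred (fun n : ℕ => (dl n.unpair.2.unpair.2.unpair.1).length =
      n.unpair.2.unpair.1 + 1) :=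
    Primrec.eq.comp (Primrec.list_length.comp n1) (Primrec.succ.comp hj)
  have a4 : PrimrecPred (fun n : ℕ => (dl n.unpair.2.unpair.2.unpair.2).length =
      n.unpair.2.unpair.1 + 1) :=
    Primrec.eq.comp (Primrec.list_length.comp n2) (Primrec.succ.comp hj)
  have b0 : PrimrecPred (fun n : ℕ => n.unpair.1.unpair.1 ≤ n.unpair.2.unpair.1) :=
    Primrec.nat_le.comp hi hj
  have b1 : PrimrecPred (fun n : ℕ => dl n.unpair.1.unpair.2.unpair.1 <+:
      dl n.unpair.2.unpair.2.unpair.1) := pfx.comp m1 n1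
  have b2 : PrimrecPred (fun n : ℕ => dl n.unpair.1.unpair.2.unpair.2 <+:
      dl n.unpair.2.unpair.2.unpair.2) := pfx.comp m2 n2
  refine ((((a1.and a2).and a3).and a4).and (b0.not.or (b1.and b2))).of_eq fun n => ?_
  unfold PE
  tauto

theorem comp_of {p : ℕ → Prop} (h : PrimrecPred p) : ComputablePred p := by
  obtain ⟨h1, h2⟩ := h
  exact ⟨h1, h2.to_comp⟩

theorem cond : PrimrecPred (fun n : ℕ => ∃ a, dl n.unpair.2.unpair.1 =
    a :: dl n.unpair.1.unpair.1) := by
  have hi : Primrec (fun n : ℕ => dl n.unpair.1.unpair.1) := dl_pr.comp (u1.comp u1)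
  have hj : Primrec (fun n : ℕ => dl n.unpair.2.unpair.1) := dl_pr.comp (u1.comp u2)
  have h1 : PrimrecPred (fun n : ℕ => dl n.unpair.2.unpair.1 = []) :=
    Primrec.eq.comp hj (Primrec.const [])
  have h2 : PrimrecPred (fun n : ℕ => (dl n.unpair.2.unpair.1).tail = dl n.unpair.1.unpair.1) :=
    Primrec.eq.comp (Primrec.list_tail.comp hj) hi
  refine (h1.not.and h2).of_eq fun n => ?_
  constructor
  · rintro ⟨h3, h4⟩
    obtain ⟨a, l, h5⟩ := List.exists_cons_of_ne_nil h3
    rw [h5] at h4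
    exact ⟨a, by rw [h5, ← h4]; rfl⟩
  · rintro ⟨a, h3⟩
    rw [h3]
    exact ⟨by simp, rfl⟩

/-- the number which is tested -/
def gg (p : ℕ) : ℕ :=
  cd ((dl p.unpair.1.unpair.2.unpair.2.unpair.1).take p.unpair.2)
    ((dl p.unpair.1.unpair.2.unpair.2.unpair.2).take p.unpair.2)
    ((dl p.unpair.1.unpair.2.unpair.1).reverse.take p.unpair.2)

theorem gg_pr : Primrec gg := by
  have hn : Primrec (fun p : ℕ => p.unpair.1.unpair.2.unpair.2) := u2.comp (u2.comp u1)
  have hj : Primrec (fun p : ℕ => dl p.unpair.1.unpair.2.unpair.1) :=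
    dl_pr.comp (u1.comp (u2.comp u1))
  have t1 : Primrec (fun p : ℕ => (dl p.unpair.1.unpair.2.unpair.2.unpair.1).take p.unpair.2) :=
    Primrec.list_take.comp u2 (dl_pr.comp (u1.comp hn))
  have t2 : Primrec (fun p : ℕ => (dl p.unpair.1.unpair.2.unpair.2.unpair.2).take p.unpair.2) :=
    Primrec.list_take.comp u2 (dl_pr.comp (u2.comp hn))
  have t3 : Primrec (fun p : ℕ => (dl p.unpair.1.unpair.2.unpair.1).reverse.take p.unpair.2) :=
    Primrec.list_take.comp u2 (Primrec.list_reverse.comp hj)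
  exact Primrec₂.natPair.comp (el_pr.comp t1)
    (Primrec₂.natPair.comp (el_pr.comp t2) (el_pr.comp t3))

theorem eq1 : S_EQ1 := by
  intro C hC
  refine ⟨hC.comp _ (comp_of ee), fun R hR => ?_⟩
  have h1 : C {n | ∃ a, dl n.unpair.2.unpair.1 = a :: dl n.unpair.1.unpair.1} :=
    hC.comp _ (comp_of cond)
  have h2 : C {p : ℕ | gg p ∈ R} := hC.pre R gg hR gg_pr.to_comp
  have h3 : C {p : ℕ | p.unpair.2 ≤ (dl p.unpair.1.unpair.2.unpair.1).length} :=
    hC.comp _ (comp_of (Primrec.nat_le.comp u2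
      (Primrec.list_length.comp (dl_pr.comp (u1.comp (u2.comp u1))))))
  have h4 := hC.compl _ (hC.ex _ (hC.inter _ _ h3 h2))
  have h5 := hC.inter _ _ h1 h4
  convert h5 using 1
  ext n
  simp only [QQ, PQ, gg, Set.mem_ofPred_eq, Set.mem_inter_iff, Set.mem_compl_iff, Nat.unpair_pair]
  push Not
  rfl

end Pool.Agent.N596.SD
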